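import Pool.Agent.H6.C3.Main

/-!
# A cube plus a prime over finite fields of characteristic three

The analogue of the question for polynomials over a finite field `K`: is every monic polynomial `f`
of large degree, not a cube, of the form `m ^ 3 + P` with `P` irreducible and
`deg (m ^ 3) < deg f`? In characteristic three the answer is no.
-/

set_option autoImplicit false

namespace Pool.Agent.Results.MP_15f56c_nt.CharacteristicThree

open Polynomial Pool.Agent.H6.C3

/-- `K` is a finite field with `q` elements, of characteristic three.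
(1) Let `f` be monic of degree `n` and let its derivative be `c` times the square of a polynomial. If
`(-1) ^ (n (n - 1) / 2) * c ^ n` is a square in `K` and `n` is even, or if it is not a square and `n` is
odd, then `f - m ^ 3` is reducible for every polynomial `m` with `3 deg m < n`.
(2) If `n > 0` is divisible by three and not congruent to six modulo twelve (or `- 1` is a square in
`K`), then at least `q ^ (n / 3 + (n - 2) / 6)` monic `f` of degree `n` are not cubes and are such that
`f - m ^ 3` is reducible for every polynomial `m` with `3 deg m < n`. -/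
theorem result (K : Type) [Field K] [Fintype K] [CharP K 3] :
    (∀ (f g : K[X]) (c : K), f.Monic → derivative f = C c * g ^ 2 →
      ¬ (IsSquare ((-1 : K) ^ (f.natDegree * (f.natDegree - 1) / 2) * c ^ f.natDegree) ↔
        Odd f.natDegree) →
      ∀ m : K[X], 3 * m.natDegree < f.natDegree → ¬ Irreducible (f - m ^ 3)) ∧
    (∀ n : ℕ, 0 < n → 3 ∣ n → (n % 12 = 6 → IsSquare (-1 : K)) →
      ((Fintype.card K ^ (n / 3 + (n - 2) / 6) : ℕ) : ℕ∞) ≤
        Set.encard {f : K[X] | f.Monic ∧ f.natDegree = n ∧ (∀ r : K[X], f ≠ r ^ 3) ∧
          ∀ m : K[X], 3 * m.natDegree < n → ¬ Irreducible (f - m ^ 3)}) := by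
  refine ⟨fun f g c hf hd hc m hm => exceptional f g c hf hd hc m hm, ?_⟩
  rintro n hn ⟨k, rfl⟩ h6
  have hk : 0 < k := by omega
  obtain ⟨c, hc0, hc⟩ : ∃ c : K, c ≠ 0 ∧
      ¬ (IsSquare ((-1 : K) ^ (3 * k * (3 * k - 1) / 2) * c ^ (3 * k)) ↔ Odd (3 * k)) :=
    exists_const k h6
  have hdiv : 3 * k / 3 = k := by omega
  rw [hdiv]
  exact count_family k ((3 * k - 2) / 6) (by omega) c hc0 hc

end Pool.Agent.Results.MP_15f56c_nt.CharacteristicThree
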