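import Pool.Agent.H73.Cub.Cover

/-!
MP_15f56c_nt, integers as a positive cube plus a prime: for every `ε > 0` at least `X ^ (1 - ε)`
non-cubes `n ≤ X` are such that `n - m ^ 3` is not prime for all `m` up to
`c log X (loglog X)^2 (loglogloglog X)^2 / (logloglog X)^3`.
-/

set_option autoImplicit false

open Finset Real Filter

namespace Pool.Agent.Results.MP_15f56c_nt.LargeLeastCube

open Pool.Agent.H16 Pool.Agent.H73.Cub

/-- `log X (loglog X)^2 (loglogloglog X)^2 / (logloglog X)^3` -/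
noncomputable def F (X : ℝ) : ℝ :=
  Real.log X * Real.log (Real.log X) ^ 2 * Real.log (Real.log (Real.log (Real.log X))) ^ 2 /
    Real.log (Real.log (Real.log X)) ^ 3

lemma crt (a : ℕ → ℕ) (z : ℕ) : ∃ n0 : ℕ, n0 < ∏ p ∈ Nat.primesLE z, p ∧
    ∀ p ∈ Nat.primesLE z, n0 % p = a p % p := by
  have hpp : Set.Pairwise (↑(Nat.primesLE z) : Set ℕ) (Function.onFun Nat.Coprime (fun p => p)) := by
    intro p hp q hq hpq
    have hp' := (Nat.mem_primesLE.mp (Finset.mem_coe.mp hp)).2
    have hq' := (Nat.mem_primesLE.mp (Finset.mem_coe.mp hq)).2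
    exact (Nat.coprime_primes hp' hq').mpr hpq
  have hs : ∀ p ∈ Nat.primesLE z, (fun p => p) p ≠ 0 := fun p hp =>
    (Nat.mem_primesLE.mp hp).2.ne_zero
  refine ⟨(Nat.chineseRemainderOfFinset a (fun p => p) (Nat.primesLE z) hs hpp : ℕ),
    Nat.chineseRemainderOfFinset_lt_prod a (fun p => p) hs hpp, ?_⟩
  intro p hp
  exact (Nat.chineseRemainderOfFinset a (fun p => p) (Nat.primesLE z) hs hpp).2 p hp

lemma prod_primes_le (z : ℕ) : ∏ p ∈ Nat.primesLE z, p ≤ 4 ^ z := by
  have h := primorial_le_four_pow z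
  unfold primorial at h
  refine le_trans (le_of_eq ?_) h
  apply Finset.prod_congr _ (fun _ _ => rfl)
  ext p
  rw [Nat.mem_primesLE, Finset.mem_filter, Finset.mem_range]
  constructor
  · rintro ⟨h1, h2⟩; exact ⟨by omega, h2⟩
  · rintro ⟨h1, h2⟩; exact ⟨by omega, h2⟩

lemma not_cube (n : ℕ) (h : n % 7 = 2) (k : ℕ) : n ≠ k ^ 3 := by
  rintro rfl
  rw [Nat.pow_mod] at h
  have : k % 7 < 7 := Nat.mod_lt _ (by norm_num)
  interval_cases hk : k % 7 <;> simp_all

/-- iterated logarithms at `X` and at `z` -/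
lemma F_le (δ : ℝ) (hδ : 0 < δ) (X z : ℝ) (hz : 0 < z) (hzX : z ≤ Real.log X)
    (hXz : Real.log X ≤ 5 / δ * z) (h1 : Real.log (5 / δ) ≤ Real.log z) (h2 : 2 ≤ Real.log z)
    (h3 : 2 ≤ Real.log (Real.log z)) (h4 : 2 ≤ Real.log (Real.log (Real.log z))) :
    F X ≤ 80 / δ * G z := by
  have hlX : 0 < Real.log X := by linarith
  have hl2 : Real.log 2 ≤ 1 := by have := Real.log_two_lt_d9; linarith
  -- second logarithm
  have hLLge : Real.log z ≤ Real.log (Real.log X) := Real.log_le_log hz hzX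
  have hLL : Real.log (Real.log X) ≤ 2 * Real.log z := by
    calc Real.log (Real.log X) ≤ Real.log (5 / δ * z) := Real.log_le_log hlX hXz
      _ = Real.log (5 / δ) + Real.log z := Real.log_mul (by positivity) hz.ne'
      _ ≤ _ := by linarith
  have hLLpos : 0 < Real.log (Real.log X) := by linarith
  -- third
  have hLLLge : Real.log (Real.log z) ≤ Real.log (Real.log (Real.log X)) :=
    Real.log_le_log (by linarith) hLLge
  have hLLL : Real.log (Real.log (Real.log X)) ≤ 2 * Real.log (Real.log z) := by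
    calc Real.log (Real.log (Real.log X)) ≤ Real.log (2 * Real.log z) :=
          Real.log_le_log hLLpos hLL
      _ = Real.log 2 + Real.log (Real.log z) := Real.log_mul (by norm_num) (by linarith)
      _ ≤ _ := by linarith
  have hLLLpos : 0 < Real.log (Real.log (Real.log X)) := by linarith
  -- fourth
  have hL4ge : Real.log (Real.log (Real.log z)) ≤ Real.log (Real.log (Real.log (Real.log X))) :=
    Real.log_le_log (by linarith) hLLLge
  have hL4 : Real.log (Real.log (Real.log (Real.log X))) ≤ 2 * Real.log (Real.log (Real.log z)) := by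
    calc Real.log (Real.log (Real.log (Real.log X))) ≤ Real.log (2 * Real.log (Real.log z)) :=
          Real.log_le_log hLLLpos hLLL
      _ = Real.log 2 + Real.log (Real.log (Real.log z)) := Real.log_mul (by norm_num) (by linarith)
      _ ≤ _ := by linarith
  have hL4nn : 0 ≤ Real.log (Real.log (Real.log (Real.log X))) := by linarith
  unfold F G
  calc Real.log X * Real.log (Real.log X) ^ 2 * Real.log (Real.log (Real.log (Real.log X))) ^ 2 /
        Real.log (Real.log (Real.log X)) ^ 3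
      ≤ (5 / δ * z) * (2 * Real.log z) ^ 2 * (2 * Real.log (Real.log (Real.log z))) ^ 2 /
        (Real.log (Real.log z)) ^ 3 := by gcongr
    _ = _ := by ring

lemma F_le_pow (X : ℝ) (h1 : 1 ≤ Real.log X) (h2 : 1 ≤ Real.log (Real.log X))
    (h3 : 1 ≤ Real.log (Real.log (Real.log X)))
    (h4 : 0 ≤ Real.log (Real.log (Real.log (Real.log X)))) : F X ≤ Real.log X ^ 5 := by
  have a2 : Real.log (Real.log X) ≤ Real.log X :=
    (Real.log_le_sub_one_of_pos (by linarith)).trans (by linarith)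
  have a3 : Real.log (Real.log (Real.log X)) ≤ Real.log (Real.log X) :=
    (Real.log_le_sub_one_of_pos (by linarith)).trans (by linarith)
  have a4 : Real.log (Real.log (Real.log (Real.log X))) ≤ Real.log (Real.log (Real.log X)) :=
    (Real.log_le_sub_one_of_pos (by linarith)).trans (by linarith)
  unfold F
  have hden : (1 : ℝ) ≤ Real.log (Real.log (Real.log X)) ^ 3 := one_le_pow₀ h3
  calc Real.log X * Real.log (Real.log X) ^ 2 * Real.log (Real.log (Real.log (Real.log X))) ^ 2 /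
        Real.log (Real.log (Real.log X)) ^ 3
      ≤ Real.log X * Real.log (Real.log X) ^ 2 * Real.log (Real.log (Real.log (Real.log X))) ^ 2 := by
        apply div_le_self _ hden
        positivity
    _ ≤ Real.log X * Real.log X ^ 2 * Real.log X ^ 2 := by
        have b2 := pow_le_pow_left₀ (show 0 ≤ Real.log (Real.log X) by linarith) a2 2
        have b4 := pow_le_pow_left₀ h4 (show Real.log (Real.log (Real.log (Real.log X))) ≤
          Real.log X by linarith) 2
        have b0 : 0 ≤ Real.log X := by linarith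
        exact mul_le_mul (mul_le_mul_of_nonneg_left b2 b0) b4 (by positivity) (by positivity)
    _ = _ := by ring

/-- main argument for one `X` -/
lemma main_step (c0 : ℝ) (δ c : ℝ) (hδ : 0 < δ) (hδ1 : δ ≤ 1 / 2) (hc : 0 < c) (hc1 : c ≤ 1)
    (hcc : 2 * c * (80 / δ) ≤ c0) (X z : ℕ) (hX : (64 : ℝ) ≤ X)
    (hzX : (z : ℝ) ≤ δ * Real.log X / 4) (h7 : 7 ≤ z)
    (hcov : ∀ t : ℕ, (t : ℝ) ≤ c0 * G z →
      ∃ a : ℕ → ℕ, a 7 = 2 ∧ ∀ m, 0 < m → m < t → ∃ p, p.Prime ∧ p ≤ z ∧ m ^ 3 % p = a p % p)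
    (hF : F X ≤ 80 / δ * G z) (hF1 : 1 ≤ c * F X) (hF5 : F X ≤ Real.log X ^ 5)
    (hbig : Real.log X ^ 15 + Real.log X ≤ (X : ℝ) / 8)
    (hpow : (4 : ℝ) ≤ (X : ℝ) ^ (δ / 2)) (hpow2 : (X : ℝ) ^ (δ / 2) ≤ (X : ℝ) / 4) :
    (X : ℝ) ^ (1 - δ) ≤ ({n : ℕ | n ≤ X ∧ (∀ k : ℕ, n ≠ k ^ 3) ∧
      ∀ m : ℕ, 0 < m → (m : ℝ) ≤ c * F X → m ^ 3 < n ∧ ¬ (n - m ^ 3).Prime}.ncard : ℝ) := by
  have hX0 : (0 : ℝ) < X := by linarith
  have hlX0 : 0 ≤ Real.log X := Real.log_natCast_nonneg X
  -- the covering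
  set t : ℕ := ⌊c * F X⌋₊ + 1 with ht
  have htle : (t : ℝ) ≤ c0 * G z := by
    have h1 : ((⌊c * F X⌋₊ : ℕ) : ℝ) ≤ c * F X := Nat.floor_le (by linarith)
    have h2 : (t : ℝ) ≤ 2 * (c * F X) := by rw [ht]; push_cast; linarith
    have hG : 0 ≤ G z := by
      have h80 : 0 ≤ F X := by
        by_contra h
        push Not at h
        have : c * F X < 0 := mul_neg_of_pos_of_neg hc h
        linarith
      have h81 : 0 ≤ 80 / δ * G z := h80.trans hF
      have h82 : 0 < 80 / δ := by positivity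
      exact nonneg_of_mul_nonneg_right h81 h82
    calc (t : ℝ) ≤ 2 * (c * F X) := h2
      _ ≤ 2 * (c * (80 / δ * G z)) := by gcongr
      _ = (2 * c * (80 / δ)) * G z := by ring
      _ ≤ c0 * G z := by gcongr
  obtain ⟨a, ha7, ha⟩ := hcov t htle
  obtain ⟨n0, hn0, hn0p⟩ := crt a z
  set P : ℕ := ∏ p ∈ Nat.primesLE z, p with hP
  have hPpos : 0 < P := Finset.prod_pos (fun p hp => (Nat.mem_primesLE.mp hp).2.pos)
  have hPr : (0 : ℝ) < P := by exact_mod_cast hPpos
  have hPle : (P : ℝ) ≤ (X : ℝ) ^ (δ / 2) := by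
    have h1 : (P : ℝ) ≤ (4 : ℝ) ^ z := by exact_mod_cast prod_primes_le z
    refine h1.trans ?_
    rw [← Real.rpow_natCast, Real.rpow_def_of_pos (by norm_num), Real.rpow_def_of_pos hX0]
    apply Real.exp_le_exp.mpr
    have hl4 : Real.log 4 ≤ 2 := by
      rw [show (4 : ℝ) = 2 ^ 2 by norm_num, Real.log_pow]
      have := Real.log_two_lt_d9
      push_cast; linarith
    have hz0 : (0 : ℝ) ≤ z := Nat.cast_nonneg z
    calc Real.log 4 * (z : ℝ) ≤ 2 * (δ * Real.log X / 4) := by gcongr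
      _ = Real.log X * (δ / 2) := by ring
  set Q : ℕ := X / (2 * P) with hQ
  have hQlt : (X : ℝ) < 2 * P * (Q + 1) := by
    have := Nat.lt_mul_div_succ X (show 0 < 2 * P by omega)
    rw [← hQ] at this
    exact_mod_cast this
  have hQle : 2 * P * Q ≤ X := Nat.mul_div_le X (2 * P)
  -- the image
  have hsub : ((Finset.image (fun j => n0 + P * (Q + j)) (range Q) : Finset ℕ) : Set ℕ) ⊆
      {n : ℕ | n ≤ X ∧ (∀ k : ℕ, n ≠ k ^ 3) ∧
        ∀ m : ℕ, 0 < m → (m : ℝ) ≤ c * F X → m ^ 3 < n ∧ ¬ (n - m ^ 3).Prime} := by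
    intro n hn
    rw [Finset.mem_coe, Finset.mem_image] at hn
    obtain ⟨j, hj, rfl⟩ := hn
    rw [Finset.mem_range] at hj
    set n := n0 + P * (Q + j) with hn
    have hmodp : ∀ p ∈ Nat.primesLE z, n % p = a p % p := by
      intro p hp
      rw [← hn0p p hp, hn]
      have hdvd : p ∣ P := Finset.dvd_prod_of_mem _ hp
      obtain ⟨q, hq⟩ := hdvd
      rw [hq, mul_assoc, Nat.add_mul_mod_self_left]
    have hnX : n ≤ X := by
      have h1 : n ≤ P * (Q + j + 1) := by
        rw [hn]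
        calc n0 + P * (Q + j) ≤ P + P * (Q + j) := by omega
          _ = P * (Q + j + 1) := by ring
      have h2 : P * (Q + j + 1) ≤ P * (2 * Q) := Nat.mul_le_mul_left P (by omega)
      calc n ≤ P * (2 * Q) := h1.trans h2
        _ = 2 * P * Q := by ring
        _ ≤ X := hQle
    have hnge : (X : ℝ) / 4 ≤ n := by
      have h1 : (P : ℝ) * Q ≤ n := by
        have : P * Q ≤ n := by
          rw [hn]
          calc P * Q ≤ P * (Q + j) := Nat.mul_le_mul_left P (by omega)
            _ ≤ _ := Nat.le_add_left _ _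
        exact_mod_cast this
      linarith
    refine ⟨hnX, ?_, ?_⟩
    · apply not_cube
      have h72 := hmodp 7 (Nat.mem_primesLE.mpr ⟨h7, by norm_num⟩)
      rw [ha7] at h72
      simpa using h72
    · intro m hm0 hm
      have hmt : m < t := by
        rw [ht]
        exact Nat.lt_succ_of_le (Nat.le_floor hm)
      obtain ⟨p, hp, hpz, hpm⟩ := ha m hm0 hmt
      have hm3 : ((m ^ 3 : ℕ) : ℝ) ≤ Real.log X ^ 15 := by
        have h1 : (m : ℝ) ≤ Real.log X ^ 5 := by
          calc (m : ℝ) ≤ c * F X := hm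
            _ ≤ 1 * F X := by
                apply mul_le_mul_of_nonneg_right hc1
                by_contra h
                push Not at h
                have : c * F X < 0 := mul_neg_of_pos_of_neg hc h
                linarith
            _ ≤ Real.log X ^ 5 := by rw [one_mul]; exact hF5
        push_cast
        calc (m : ℝ) ^ 3 ≤ (Real.log X ^ 5) ^ 3 := pow_le_pow_left₀ (Nat.cast_nonneg m) h1 3
          _ = _ := by ring
      have hzlog : (z : ℝ) ≤ Real.log X := by
        have : δ * Real.log X / 4 ≤ Real.log X := by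
          have : δ * Real.log X ≤ 1 * Real.log X := by gcongr; linarith
          linarith
        linarith
      have hgt : ((m ^ 3 + z : ℕ) : ℝ) < n := by
        push_cast
        push_cast at hm3
        linarith
      have hgt' : m ^ 3 + z < n := by exact_mod_cast hgt
      refine ⟨by omega, ?_⟩
      intro hprime
      have hdvd : p ∣ n - m ^ 3 := by
        have h1 : n % p = m ^ 3 % p := by
          rw [hmodp p (Nat.mem_primesLE.mpr ⟨hpz, hp⟩), hpm]
        exact (Nat.modEq_iff_dvd' (by omega)).mp h1.symm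
      have := (Nat.prime_dvd_prime_iff_eq hp hprime).mp hdvd
      omega
  have hfin : {n : ℕ | n ≤ X ∧ (∀ k : ℕ, n ≠ k ^ 3) ∧
        ∀ m : ℕ, 0 < m → (m : ℝ) ≤ c * F X → m ^ 3 < n ∧ ¬ (n - m ^ 3).Prime}.Finite :=
    (Set.finite_Iic X).subset (fun n hn => hn.1)
  have hcard : Q ≤ {n : ℕ | n ≤ X ∧ (∀ k : ℕ, n ≠ k ^ 3) ∧
        ∀ m : ℕ, 0 < m → (m : ℝ) ≤ c * F X → m ^ 3 < n ∧ ¬ (n - m ^ 3).Prime}.ncard := by
    have h1 := Set.ncard_le_ncard hsub hfin
    rw [Set.ncard_coe_finset, Finset.card_image_of_injective, Finset.card_range] at h1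
    · exact h1
    · intro i j hij
      have h2 : n0 + P * (Q + i) = n0 + P * (Q + j) := hij
      have h3 : P * (Q + i) = P * (Q + j) := by omega
      have h4 := Nat.eq_of_mul_eq_mul_left hPpos h3
      omega
  have hQge : (X : ℝ) ^ (1 - δ) ≤ Q := by
    have h1 : (X : ℝ) ^ (1 - δ) * (X : ℝ) ^ (δ / 2) * (X : ℝ) ^ (δ / 2) = X := by
      rw [← Real.rpow_add hX0, ← Real.rpow_add hX0]
      rw [show 1 - δ + δ / 2 + δ / 2 = 1 by ring, Real.rpow_one]
    have hY : (1 : ℝ) ≤ (X : ℝ) ^ (1 - δ) := Real.one_le_rpow (by linarith) (by linarith)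
    set Y := (X : ℝ) ^ (1 - δ) with hYdef
    set Z := (X : ℝ) ^ (δ / 2) with hZdef
    have hZ0 : 0 < Z := by linarith
    have h2 : Y * Z * Z < 2 * Z * (Q + 1) := by
      rw [h1]
      have hQ0 : (0 : ℝ) ≤ (Q : ℝ) + 1 := by positivity
      calc (X : ℝ) < 2 * P * (Q + 1) := hQlt
        _ ≤ 2 * Z * (Q + 1) := by gcongr
    have h3 : Y * Z < 2 * (Q + 1) := by
      have h4 : (Y * Z) * Z < (2 * ((Q : ℝ) + 1)) * Z := by linarith
      exact lt_of_mul_lt_mul_right h4 hZ0.le
    have h5 : Y * 4 ≤ Y * Z := by gcongr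
    linarith
  calc (X : ℝ) ^ (1 - δ) ≤ Q := hQge
    _ ≤ _ := by exact_mod_cast hcard

/-- **Theorem.** For every `ε > 0` there is `c > 0` such that for all large `X` at least
`X ^ (1 - ε)` integers `n ≤ X` are not cubes and have `n - m ^ 3` positive and not prime for every
`m ≥ 1` with `m ≤ c log X (loglog X)^2 (loglogloglog X)^2 / (logloglog X)^3`. -/
theorem result : ∀ ε : ℝ, 0 < ε → ∃ c : ℝ, 0 < c ∧ ∀ᶠ X : ℕ in atTop,
    (X : ℝ) ^ (1 - ε) ≤ ({n : ℕ | n ≤ X ∧ (∀ k : ℕ, n ≠ k ^ 3) ∧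
      ∀ m : ℕ, 0 < m → (m : ℝ) ≤ c * (Real.log X * Real.log (Real.log X) ^ 2 *
          Real.log (Real.log (Real.log (Real.log X))) ^ 2 /
            Real.log (Real.log (Real.log X)) ^ 3) →
        m ^ 3 < n ∧ ¬ (n - m ^ 3).Prime}.ncard : ℝ) := by
  intro ε hε
  obtain ⟨c0, hc0, hcov⟩ := cover_cubes
  set δ : ℝ := min ε (1 / 2) with hδdef
  have hδ : 0 < δ := by rw [hδdef]; positivity
  have hδ1 : δ ≤ 1 / 2 := min_le_right _ _
  have hδε : δ ≤ ε := min_le_left _ _
  set c : ℝ := min 1 (c0 * δ / 160) with hcdef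
  have hc : 0 < c := by rw [hcdef]; positivity
  have hc1 : c ≤ 1 := min_le_left _ _
  have hcc : 2 * c * (80 / δ) ≤ c0 := by
    have h1 : c ≤ c0 * δ / 160 := min_le_right _ _
    calc 2 * c * (80 / δ) ≤ 2 * (c0 * δ / 160) * (80 / δ) := by gcongr
      _ = c0 := by field_simp; ring
  refine ⟨c, hc, ?_⟩
  -- tendsto facts
  have tX : Tendsto (fun X : ℕ => (X : ℝ)) atTop atTop := tendsto_natCast_atTop_atTop
  have tL1 : Tendsto (fun X : ℕ => Real.log (X : ℝ)) atTop atTop := Real.tendsto_log_atTop.comp tX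
  have tz : Tendsto (fun X : ℕ => ⌊δ * Real.log (X : ℝ) / 4⌋₊) atTop atTop := by
    apply tendsto_nat_floor_atTop.comp
    apply Tendsto.atTop_div_const (by norm_num)
    exact Tendsto.const_mul_atTop hδ tL1
  have tzr : Tendsto (fun X : ℕ => ((⌊δ * Real.log (X : ℝ) / 4⌋₊ : ℕ) : ℝ)) atTop atTop :=
    tX.comp tz
  have tzl1 := Real.tendsto_log_atTop.comp tzr
  have tzl2 := Real.tendsto_log_atTop.comp tzl1
  have tzl3 := Real.tendsto_log_atTop.comp tzl2
  have tL2 := Real.tendsto_log_atTop.comp tL1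
  have tL3 := Real.tendsto_log_atTop.comp tL2
  have tL4 := Real.tendsto_log_atTop.comp tL3
  -- growth
  have hlo : ∀ᶠ X : ℕ in atTop, Real.log (X : ℝ) ^ 15 + Real.log X ≤ (X : ℝ) / 8 := by
    have h1 := (isLittleO_pow_log_id_atTop (n := 15)).bound (show (0 : ℝ) < 1 / 16 by norm_num)
    have h2 := (isLittleO_pow_log_id_atTop (n := 1)).bound (show (0 : ℝ) < 1 / 16 by norm_num)
    filter_upwards [tX.eventually h1, tX.eventually h2, tL1.eventually (eventually_ge_atTop 0)] with X h1 h2 h3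
    rw [Real.norm_of_nonneg (by positivity), id, Real.norm_of_nonneg (by positivity)] at h1 h2
    rw [pow_one] at h2
    linarith
  have hp1 : ∀ᶠ X : ℕ in atTop, (4 : ℝ) ≤ (X : ℝ) ^ (δ / 2) :=
    tX.eventually ((tendsto_rpow_atTop (by positivity)).eventually (eventually_ge_atTop 4))
  have hp2 : ∀ᶠ X : ℕ in atTop, (X : ℝ) ^ (δ / 2) ≤ (X : ℝ) / 4 := by
    have h1 : ∀ᶠ x : ℝ in atTop, (4 : ℝ) ≤ x ^ (1 / 2 : ℝ) :=
      (tendsto_rpow_atTop (by norm_num)).eventually (eventually_ge_atTop 4)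
    filter_upwards [tX.eventually h1, tX.eventually (eventually_ge_atTop 1)] with X h1 h2
    have hX0 : (0 : ℝ) < X := by linarith
    have h3 : (X : ℝ) ^ (δ / 2) ≤ (X : ℝ) ^ (1 / 2 : ℝ) :=
      Real.rpow_le_rpow_of_exponent_le h2 (by linarith)
    have h4 : (X : ℝ) ^ (1 / 2 : ℝ) * (X : ℝ) ^ (1 / 2 : ℝ) = X := by
      rw [← Real.rpow_add hX0]; norm_num
    have h5 : 4 * (X : ℝ) ^ (1 / 2 : ℝ) ≤ (X : ℝ) ^ (1 / 2 : ℝ) * (X : ℝ) ^ (1 / 2 : ℝ) := by
      gcongr
    linarith
  -- `c F X ≥ 1`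
  have hF1 : ∀ᶠ X : ℕ in atTop, 1 ≤ c * F X := by
    filter_upwards [tL1.eventually (eventually_ge_atTop (6 / c)), tL1.eventually (eventually_ge_atTop 1),
      tL2.eventually (eventually_ge_atTop 1), tL3.eventually (eventually_ge_atTop 1),
      tL4.eventually (eventually_ge_atTop 1)] with X h1 h1' h2 h3 h4
    simp only [Function.comp_apply] at h2 h3 h4
    have e2 : Real.exp (Real.log (Real.log (Real.log (X : ℝ)))) = Real.log (Real.log X) :=
      Real.exp_log (by linarith)
    have hcube : Real.log (Real.log (Real.log (X : ℝ))) ^ 3 / 6 ≤ Real.log (Real.log X) := by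
      have := cube_div_six_le_exp (show 0 ≤ Real.log (Real.log (Real.log (X : ℝ))) by linarith)
      rwa [e2] at this
    have hpos3 : 0 < Real.log (Real.log (Real.log (X : ℝ))) ^ 3 := by
      apply pow_pos; linarith
    unfold F
    rw [mul_div_assoc', le_div_iff₀ hpos3, one_mul]
    have hA : Real.log (Real.log (Real.log (X : ℝ))) ^ 3 ≤ 6 * Real.log (Real.log X) := by linarith
    have hB : 6 * Real.log (Real.log (X : ℝ)) ≤ c * (Real.log X * Real.log (Real.log X) ^ 2 *
        Real.log (Real.log (Real.log (Real.log X))) ^ 2) := by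
      have h5 : 6 ≤ c * Real.log X := by
        rw [div_le_iff₀ hc] at h1
        linarith
      have h6 : Real.log (Real.log (X : ℝ)) ≤ Real.log (Real.log X) ^ 2 *
          Real.log (Real.log (Real.log (Real.log X))) ^ 2 := by
        have h7 : (1 : ℝ) ≤ Real.log (Real.log (Real.log (Real.log X))) ^ 2 := one_le_pow₀ h4
        calc Real.log (Real.log (X : ℝ)) = Real.log (Real.log X) * 1 * 1 := by ring
          _ ≤ Real.log (Real.log X) * Real.log (Real.log X) *
              Real.log (Real.log (Real.log (Real.log X))) ^ 2 := by gcongr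
          _ = _ := by ring
      calc 6 * Real.log (Real.log (X : ℝ)) ≤ (c * Real.log X) * (Real.log (Real.log X) ^ 2 *
          Real.log (Real.log (Real.log (Real.log X))) ^ 2) := by gcongr
        _ = _ := by ring
    linarith
  filter_upwards [tz.eventually hcov, tz.eventually (eventually_ge_atTop 7),
    tX.eventually (eventually_ge_atTop 64), hlo, hp1, hp2, hF1,
    tzl1.eventually (eventually_ge_atTop (max 2 (Real.log (5 / δ)))),
    tzl2.eventually (eventually_ge_atTop 2), tzl3.eventually (eventually_ge_atTop 2),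
    tL1.eventually (eventually_ge_atTop (max 1 (20 / δ))),
    tL2.eventually (eventually_ge_atTop 1), tL3.eventually (eventually_ge_atTop 1),
    tL4.eventually (eventually_ge_atTop 0)] with X k1 k2 k3 k4 k5 k6 k7 k8 k9 k10 k11 k12 k13 k14
  simp only [Function.comp_apply] at k8 k9 k10 k12 k13 k14
  have hlX : 20 / δ ≤ Real.log X := (le_max_right _ _).trans k11
  have hlX1 : 1 ≤ Real.log X := (le_max_left _ _).trans k11
  set z : ℕ := ⌊δ * Real.log (X : ℝ) / 4⌋₊ with hz
  have hzX : (z : ℝ) ≤ δ * Real.log X / 4 := Nat.floor_le (by positivity)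
  have hzlt : δ * Real.log X / 4 < (z : ℝ) + 1 := Nat.lt_floor_add_one _
  have hXz : Real.log X ≤ 5 / δ * z := by
    rw [div_le_iff₀ hδ] at hlX
    rw [div_mul_eq_mul_div, le_div_iff₀ hδ]
    linarith
  have hz0 : (0 : ℝ) < z := by exact_mod_cast (by omega : 0 < z)
  have hFG : F X ≤ 80 / δ * G z := by
    apply F_le δ hδ X z hz0 _ hXz ((le_max_right _ _).trans k8) ((le_max_left _ _).trans k8) k9 k10
    have h1 : δ * Real.log X ≤ 1 * Real.log X := by gcongr; linarith
    linarith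
  have hF5 : F X ≤ Real.log X ^ 5 := F_le_pow X hlX1 k12 k13 k14
  have hmain := main_step c0 δ c hδ hδ1 hc hc1 hcc X z k3 hzX k2 k1 hFG k7 hF5 k4 k5 k6
  have hexp : (X : ℝ) ^ (1 - ε) ≤ (X : ℝ) ^ (1 - δ) :=
    Real.rpow_le_rpow_of_exponent_le (by linarith) (by linarith)
  exact hexp.trans hmain

end Pool.Agent.Results.MP_15f56c_nt.LargeLeastCube
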